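import Mathlib

set_option autoImplicit false

/-!
# `b_n` is at most `(3 ^ n - 1) / 2` (MP_390115_co)

`Q` is contained in `P` as a covering subset if there is an order embedding of `Q` in `P` which maps
covering pairs to covering pairs. `b n` is the least number of elements of a finite ordered set
that contains every ordered set with at most `n` elements as a covering subset. We show
`2 * b n + 1 ≤ 3 ^ n`, in particular `b n = 2 ^ O(n)`.

The universal ordered set: its elements are the triples `(i, D, C)` with `C ⊆ D ⊆ {0, …, i - 1}`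
and `i < n`; put `(i, D, C) → (j, E, F)` if `i ∈ F`, `D ∪ {i} ⊆ E` and `D ∩ F = ∅`, and take the
reflexive and transitive closure. All arrows are covering pairs. An ordered set `Q` with a linear
extension `e` embeds by `x ↦ (e x, e {y | y < x}, e {y | y ⋖ x})`.
-/

namespace Pool.Agent.Results.MP_390115_co.ExponentialBound

/-- `Q` is contained in `P` as a covering subset. -/
def CoveringSubset (Q P : Type) [PartialOrder Q] [PartialOrder P] : Prop :=
  ∃ f : Q ↪o P, ∀ x y : Q, x ⋖ y → f x ⋖ f y

/-- The least number of elements of a finite ordered set that contains every ordered set with at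
most `n` elements as a covering subset. -/
noncomputable def b (n : ℕ) : ℕ :=
  sInf {m : ℕ | ∃ (P : Type) (_ : Fintype P) (_ : PartialOrder P), Fintype.card P = m ∧
    ∀ (Q : Type) [Fintype Q] [PartialOrder Q], Fintype.card Q ≤ n → CoveringSubset Q P}

/-- The elements of the universal ordered set. -/
structure Lab (n : ℕ) where
  i : Fin n
  D : Finset (Fin n)
  C : Finset (Fin n)
  hC : C ⊆ D
  hD : ∀ k ∈ D, k < i

variable {n : ℕ}

theorem lab_ext {x y : Lab n} (h1 : x.i = y.i) (h2 : x.D = y.D) (h3 : x.C = y.C) : x = y := by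
  obtain ⟨i, D, C, _, _⟩ := x
  obtain ⟨i', D', C', _, _⟩ := y
  simp only at h1 h2 h3
  subst h1 h2 h3
  rfl

/-- The generating relation of the order. -/
def R (x y : Lab n) : Prop := x.i ∈ y.C ∧ x.i ∈ y.D ∧ x.D ⊆ y.D ∧ Disjoint x.D y.C

theorem trans_D {x y : Lab n} (h : Relation.TransGen R x y) : x.i ∈ y.D ∧ x.D ⊆ y.D := by
  induction h with
  | single h => exact ⟨h.2.1, h.2.2.1⟩
  | tail _ h ih => exact ⟨h.2.2.1 ih.1, ih.2.trans h.2.2.1⟩

theorem trans_lt {x y : Lab n} (h : Relation.TransGen R x y) : x.i < y.i :=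
  y.hD _ (trans_D h).1

instance : PartialOrder (Lab n) where
  le x y := Relation.ReflTransGen R x y
  le_refl _ := Relation.ReflTransGen.refl
  le_trans _ _ _ h1 h2 := h1.trans h2
  le_antisymm x y h1 h2 := by
    rcases Relation.reflTransGen_iff_eq_or_transGen.1 h1 with h | h
    · exact h.symm
    · rcases Relation.reflTransGen_iff_eq_or_transGen.1 h2 with h' | h'
      · exact h'
      · exact absurd ((trans_lt h).trans (trans_lt h')) (lt_irrefl _)

theorem le_def {x y : Lab n} : x ≤ y ↔ Relation.ReflTransGen R x y := Iff.rfl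

theorem lt_iff {x y : Lab n} : x < y ↔ Relation.TransGen R x y := by
  constructor
  · intro h
    rcases Relation.reflTransGen_iff_eq_or_transGen.1 (le_def.1 h.le) with h' | h'
    · exact absurd h'.symm h.ne
    · exact h'
  · intro h
    refine lt_of_le_of_ne (le_def.2 h.to_reflTransGen) ?_
    rintro rfl
    exact lt_irrefl _ (trans_lt h)

theorem covBy_of_R {x y : Lab n} (h : R x y) : x ⋖ y := by
  refine ⟨lt_iff.2 (Relation.TransGen.single h), ?_⟩
  intro z hxz hzy
  obtain ⟨w, hzw, hwy⟩ := Relation.TransGen.tail'_iff.1 (lt_iff.1 hzy)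
  have hxw : Relation.TransGen R x w := lt_iff.1 (lt_of_lt_of_le hxz (le_def.2 hzw))
  exact (Finset.disjoint_left.1 hwy.2.2.2 (trans_D hxw).1) h.1

noncomputable instance : Fintype (Lab n) := by
  classical
  exact Fintype.ofInjective (fun x : Lab n => (x.i, x.D, x.C)) (by
    intro x y h
    simp only [Prod.mk.injEq] at h
    exact lab_ext h.1 h.2.1 h.2.2)

open Classical in
/-- The code of a label. -/
noncomputable def code (x : Lab n) : Σ i : Fin n, (Fin i → Fin 3) :=
  ⟨x.i, fun k => if (⟨k, k.2.trans x.i.2⟩ : Fin n) ∈ x.C then 2 else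
    if (⟨k, k.2.trans x.i.2⟩ : Fin n) ∈ x.D then 1 else 0⟩

theorem code_inj : Function.Injective (code (n := n)) := by
  intro x y h
  have hi : x.i = y.i := congrArg Sigma.fst h
  obtain ⟨i, D, C, hC, hD⟩ := x
  obtain ⟨i', D', C', hC', hD'⟩ := y
  simp only at hi
  subst hi
  simp only [code, Sigma.mk.injEq, heq_eq_eq, true_and] at h
  have hk : ∀ k : Fin n, k < i → (k ∈ C ↔ k ∈ C') ∧ (k ∈ D ↔ k ∈ D') := by
    intro k hki
    have h1 := congrFun h ⟨k.1, hki⟩
    simp only [Fin.eta] at h1
    have a1 : k ∈ C → k ∈ D := fun h => hC h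
    have a2 : k ∈ C' → k ∈ D' := fun h => hC' h
    by_cases c1 : k ∈ C <;> by_cases c2 : k ∈ C' <;> by_cases d1 : k ∈ D <;>
      by_cases d2 : k ∈ D' <;> simp [c1, c2, d1, d2] at h1 a1 a2 ⊢
  refine lab_ext rfl ?_ ?_
  · ext k
    by_cases hki : k < i
    · exact (hk k hki).2
    · exact ⟨fun h => absurd (hD k h) hki, fun h => absurd (hD' k h) hki⟩
  · ext k
    by_cases hki : k < i
    · exact (hk k hki).1
    · exact ⟨fun h => absurd (hD k (hC h)) hki, fun h => absurd (hD' k (hC' h)) hki⟩

theorem sum_pow (n : ℕ) : 2 * ∑ i : Fin n, 3 ^ (i : ℕ) + 1 = 3 ^ n := by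
  induction n with
  | zero => simp
  | succ n ih =>
    rw [Fin.sum_univ_castSucc]
    simp only [Fin.val_castSucc, Fin.val_last]
    rw [pow_succ]
    omega

theorem card_lab : 2 * Fintype.card (Lab n) + 1 ≤ 3 ^ n := by
  have h1 := Fintype.card_le_of_injective _ (code_inj (n := n))
  rw [Fintype.card_sigma] at h1
  simp only [Fintype.card_fun, Fintype.card_fin] at h1
  have h2 := sum_pow n
  omega

theorem universal (Q : Type) [Fintype Q] [PartialOrder Q] (hQ : Fintype.card Q ≤ n) :
    CoveringSubset Q (Lab n) := by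
  classical
  -- a linear extension
  obtain ⟨e, he1, he2⟩ : ∃ e : Q → Fin n, Function.Injective e ∧ ∀ x y, x < y → e x < e y := by
    let _ : Fintype (LinearExtension Q) := inferInstanceAs (Fintype Q)
    have hc : Fintype.card (LinearExtension Q) = Fintype.card Q := rfl
    let f := Fintype.orderIsoFinOfCardEq (LinearExtension Q) hc
    refine ⟨fun x => Fin.castLE hQ (f.symm (toLinearExtension x)), ?_, ?_⟩
    · intro x y h
      have h1 := (Fin.castLE_injective hQ) h
      exact f.symm.injective h1
    · intro x y h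
      have h1 : toLinearExtension x ≤ toLinearExtension y := toLinearExtension.monotone h.le
      have h2 : toLinearExtension x ≠ toLinearExtension y := fun h' => h.ne h'
      have h3 := f.symm.lt_iff_lt.2 (lt_of_le_of_ne h1 h2)
      exact h3
  let F : Q → Lab n := fun x =>
    { i := e x
      D := (Finset.univ.filter fun y => y < x).image e
      C := (Finset.univ.filter fun y => y ⋖ x).image e
      hC := by
        intro k hk
        obtain ⟨y, hy, rfl⟩ := Finset.mem_image.1 hk
        exact Finset.mem_image.2 ⟨y, by simpa using (Finset.mem_filter.1 hy).2.lt, rfl⟩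
      hD := by
        intro k hk
        obtain ⟨y, hy, rfl⟩ := Finset.mem_image.1 hk
        exact he2 y x (Finset.mem_filter.1 hy).2 }
  have hFD : ∀ x z : Q, e z ∈ (F x).D ↔ z < x := by
    intro x z
    simp only [F, Finset.mem_image, Finset.mem_filter, Finset.mem_univ, true_and]
    exact ⟨fun ⟨y, hy, h⟩ => he1 h ▸ hy, fun h => ⟨z, h, rfl⟩⟩
  have hFC : ∀ x z : Q, e z ∈ (F x).C ↔ z ⋖ x := by
    intro x z
    simp only [F, Finset.mem_image, Finset.mem_filter, Finset.mem_univ, true_and]
    exact ⟨fun ⟨y, hy, h⟩ => he1 h ▸ hy, fun h => ⟨z, h, rfl⟩⟩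
  have hR : ∀ x y : Q, x ⋖ y → R (F x) (F y) := by
    intro x y h
    refine ⟨(hFC y x).2 h, (hFD y x).2 h.lt, ?_, ?_⟩
    · intro k hk
      obtain ⟨z, hz, rfl⟩ := Finset.mem_image.1 hk
      exact (hFD y z).2 ((Finset.mem_filter.1 hz).2.trans h.lt)
    · rw [Finset.disjoint_left]
      intro k hk hk'
      obtain ⟨z, hz, rfl⟩ := Finset.mem_image.1 hk
      exact ((hFC y z).1 hk').2 (Finset.mem_filter.1 hz).2 h.lt
  have hle : ∀ x y : Q, F x ≤ F y ↔ x ≤ y := by
    intro x y
    constructor
    · intro h
      rcases h.eq_or_lt with h | h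
      · have h1 : e x = e y := congrArg Lab.i h
        rw [he1 h1]
      · exact ((hFD y x).1 (trans_D (lt_iff.1 h)).1).le
    · intro h
      let _ : LocallyFiniteOrder Q := Fintype.toLocallyFiniteOrder
      have h1 := (le_iff_reflTransGen_covBy (x := x) (y := y)).1 h
      clear h
      induction h1 with
      | refl => exact le_refl _
      | tail _ h2 ih => exact ih.trans (covBy_of_R (hR _ _ h2)).le
  exact ⟨OrderEmbedding.ofMapLEIff F hle, fun x y h => covBy_of_R (hR x y h)⟩

/-- `b n ≤ (3 ^ n - 1) / 2` for every `n`. -/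
theorem result : ∀ n : ℕ, 2 * b n + 1 ≤ 3 ^ n := by
  intro n
  have h1 : b n ≤ Fintype.card (Lab n) :=
    Nat.sInf_le ⟨Lab n, inferInstance, inferInstance, rfl, fun Q _ _ hQ => universal Q hQ⟩
  have h2 := card_lab (n := n)
  omega

end Pool.Agent.Results.MP_390115_co.ExponentialBound
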